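import Pool.Agent.K1H71.NX.Defs3
import Pool.Agent.Y500.NT2.LowN

/-! PosLB3: one number of size `X ^ α`, `h` numbers of size `X ^ β` (project NX3, piece POS4). -/

set_option autoImplicit false

namespace Pool.Agent.K1H68.NX3

open Finset Pool.Agent.K1H71.NX Filter
open Pool.Agent.Y500.NT2 (rad_le rad_two_pow primes_ge many_primes)

theorem rad_cast (n : ℕ) : rad ((n : ℕ) : ℤ) = Pool.Agent.H785R2.ABC.rad n := by
  simp only [rad, Pool.Agent.H785R2.ABC.rad, Int.natAbs_natCast]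

/-- a power of two times `p` between `Z` and `2 Z` -/
theorem exists_pow (Z p : ℕ) (hp : 1 ≤ p) (hpZ : p ≤ Z) :
    ∃ k : ℕ, Z ≤ 2 ^ k * p ∧ 2 ^ k * p ≤ 2 * Z := by
  classical
  have hex : ∃ k : ℕ, Z ≤ 2 ^ k * p :=
    ⟨Z, (Nat.lt_two_pow_self (n := Z)).le.trans (Nat.le_mul_of_pos_right _ hp)⟩
  refine ⟨Nat.find hex, Nat.find_spec hex, ?_⟩
  rcases Nat.eq_zero_or_pos (Nat.find hex) with h0 | h0
  · rw [h0]; omega
  · obtain ⟨i, hi⟩ : ∃ i, Nat.find hex = i + 1 := ⟨Nat.find hex - 1, by omega⟩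
    have h1 := Nat.find_min hex (m := i) (by omega)
    rw [hi, pow_succ]
    push Not at h1
    nlinarith

/-- the tuple -/
def ff (g m u : ℕ) (w : Fin g → ℕ) : Fin (g + 1 + 1) → ℕ :=
  Fin.cons m (Fin.cons (2 * u + 1) (fun i => 2 * w i))

theorem ff_inj (g : ℕ) {m u m' u' : ℕ} {w w' : Fin g → ℕ}
    (h : ff g m u w = ff g m' u' w') : m = m' ∧ u = u' ∧ w = w' := by
  unfold ff at h
  rw [Fin.cons_inj, Fin.cons_inj] at h
  refine ⟨h.1, by omega, ?_⟩
  funext i
  have := congrFun h.2.2 i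
  omega

/-- the tuple of integers -/
def gg {g : ℕ} (f : Fin (g + 1 + 1) → ℕ) : Fin (g + 1 + 1) → ℤ := fun i => (f i : ℤ)

theorem gg_inj (g : ℕ) : Function.Injective (gg (g := g)) := by
  intro f f' h
  funext i
  have := congrFun h i
  simp only [gg] at this
  exact_mod_cast this

theorem comb4 (g Z W K : ℕ)
    (hK : ∀ t : ℕ, 1 ≤ t → t ≤ 4 * ((g + 1) * W) →
      K ≤ ((Icc 1 Z).filter fun p => p.Prime ∧ ¬ p ∣ t).card) :
    ∃ T : Finset (Fin (g + 1 + 1) → ℤ),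
      (∀ a ∈ T, (∀ i, 0 < a i) ∧ IsCoprime (a 0) (∑ i, a i) ∧
        (∏ i, rad (a i)) * (rad (∑ i, a i) * rad (∑ j : Fin (g + 1), a j.succ)) ≤
          ((2 * Z) * (2 * W) ^ (g + 1)) *
            ((2 * Z + 2 * ((g + 1) * W)) * (2 * ((g + 1) * W))) ∧
        ((Z : ℕ) : ℤ) ≤ ∑ i, a i ∧
        ∑ i, a i ≤ ((2 * Z + 2 * ((g + 1) * W) : ℕ) : ℤ)) ∧
      W ^ (g + 1) * K ≤ T.card := by
  classical
  have hkf : ∀ p : ℕ, ∃ k : ℕ, 1 ≤ p → p ≤ Z → Z ≤ 2 ^ k * p ∧ 2 ^ k * p ≤ 2 * Z := by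
    intro p
    by_cases h : 1 ≤ p ∧ p ≤ Z
    · obtain ⟨k, hk⟩ := exists_pow Z p h.1 h.2
      exact ⟨k, fun _ _ => hk⟩
    · exact ⟨0, fun h1 h2 => absurd ⟨h1, h2⟩ h⟩
  choose kf hkf using hkf
  set S : Finset (Σ _ : ℕ × (Fin g → ℕ), ℕ) :=
    ((range W) ×ˢ (Fintype.piFinset fun _ : Fin g => Icc 1 W)).sigma fun q =>
      (Icc 1 Z).filter fun p => p.Prime ∧ ¬ p ∣ 2 * (2 * q.1 + 1 + ∑ i, 2 * q.2 i) with hS
  set Φ : (Σ _ : ℕ × (Fin g → ℕ), ℕ) → (Fin (g + 1 + 1) → ℤ) :=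
    fun t => gg (ff g (2 ^ kf t.2 * t.2) t.1.1 t.1.2) with hΦ
  have hinj : Set.InjOn Φ S := by
    rintro ⟨⟨u, w⟩, p⟩ ht ⟨⟨u', w'⟩, p'⟩ ht' h
    obtain ⟨h1, h2, h3⟩ := ff_inj g (gg_inj g h)
    dsimp at h1 h2 h3
    subst h2 h3
    rw [Finset.mem_coe, hS, Finset.mem_sigma, Finset.mem_filter] at ht ht'
    obtain ⟨-, -, hp, hpd⟩ := ht
    obtain ⟨-, -, hp', hpd'⟩ := ht'
    dsimp only at hp hpd hp' hpd'
    have hpp : p = p' := by
      have h4 : p ∣ 2 ^ kf p' * p' := h1 ▸ Dvd.intro_left _ rfl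
      rcases (Nat.Prime.dvd_mul hp).1 h4 with h5 | h5
      · exact absurd (Dvd.dvd.mul_right (hp.dvd_of_dvd_pow h5) _) hpd
      · exact (Nat.prime_dvd_prime_iff_eq hp hp').1 h5
    subst hpp
    rfl
  have hwsum : ∀ w : Fin g → ℕ, (∀ i, w i ≤ W) → ∑ i : Fin g, 2 * w i ≤ g * (2 * W) := by
    intro w hw
    calc ∑ i : Fin g, 2 * w i ≤ ∑ _i : Fin g, 2 * W :=
          Finset.sum_le_sum fun i _ => Nat.mul_le_mul_left 2 (hw i)
      _ = g * (2 * W) := by simp
  have hN1 : 2 * ((g + 1) * W) = 2 * W + g * (2 * W) := by ring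
  refine ⟨S.image Φ, ?_, ?_⟩
  · intro z hz
    obtain ⟨⟨⟨u, w⟩, p⟩, ht, rfl⟩ := Finset.mem_image.1 hz
    rw [hS, Finset.mem_sigma, Finset.mem_product, Fintype.mem_piFinset] at ht
    obtain ⟨⟨hu, hw⟩, hp⟩ := ht
    dsimp only at hu hp hw
    rw [Finset.mem_range] at hu
    rw [Finset.mem_filter, Finset.mem_Icc] at hp
    obtain ⟨⟨hp1, hpZ⟩, hpp, hpb⟩ := hp
    obtain ⟨hk1, hk2⟩ := hkf p hp1 hpZ
    have hw' : ∀ i, 1 ≤ w i ∧ w i ≤ W := fun i => Finset.mem_Icc.1 (hw i)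
    set m := 2 ^ kf p * p with hm
    set f := ff g m u w with hf
    have f0 : f 0 = m := rfl
    have f1 : f (Fin.succ 0) = 2 * u + 1 := rfl
    have fs : ∀ i : Fin g, f i.succ.succ = 2 * w i := fun i => rfl
    have hm1 : 1 ≤ m := by rw [hm]; exact Nat.mul_pos (by positivity) (by omega)
    have hpos : ∀ i, 1 ≤ f i := by
      intro i
      refine Fin.cases ?_ (fun i => ?_) i
      · rw [f0]; exact hm1
      · refine Fin.cases ?_ (fun i => ?_) i
        · rw [f1]; omega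
        · rw [fs]; have := (hw' i).1; omega
    have hle : ∀ i : Fin (g + 1), f i.succ ≤ 2 * W := by
      intro i
      refine Fin.cases ?_ (fun i => ?_) i
      · rw [f1]; omega
      · rw [fs]; have := (hw' i).2; omega
    have hsumb : ∑ i : Fin (g + 1), f i.succ = 2 * u + 1 + ∑ i : Fin g, 2 * w i := by
      rw [Fin.sum_univ_succ]; rfl
    have hsum : ∑ i, f i = m + ∑ i : Fin (g + 1), f i.succ := by
      rw [Fin.sum_univ_succ]; rfl
    have hws := hwsum w fun i => (hw' i).2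
    have hbpos : 1 ≤ ∑ i : Fin (g + 1), f i.succ := by rw [hsumb]; omega
    have hble : ∑ i : Fin (g + 1), f i.succ ≤ 2 * ((g + 1) * W) := by
      rw [hsumb]; omega
    have hsumle : ∑ i, f i ≤ 2 * Z + 2 * ((g + 1) * W) := by
      rw [hsum]
      omega
    have hgg : Φ ⟨⟨u, w⟩, p⟩ = gg f := rfl
    have hsumZ : ∑ i, gg f i = ((∑ i, f i : ℕ) : ℤ) := by
      simp only [gg]
      push_cast
      rfl
    have hsumZb : ∑ i : Fin (g + 1), gg f i.succ = ((∑ i : Fin (g + 1), f i.succ : ℕ) : ℤ) := by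
      simp only [gg]
      push_cast
      rfl
    have hcop : Nat.Coprime m (∑ i : Fin (g + 1), f i.succ) := by
      rw [hm]
      refine Nat.Coprime.mul_left ?_ ?_
      · refine Nat.Coprime.pow_left _ ?_
        rw [Nat.coprime_two_left, hsumb, ← Finset.mul_sum]
        refine ⟨u + ∑ i : Fin g, w i, by ring⟩
      · refine (Nat.Prime.coprime_iff_not_dvd hpp).2 fun h => hpb ?_
        rw [hsumb] at h
        exact Dvd.dvd.mul_left h 2
    rw [hgg]
    refine ⟨?_, ?_, ?_, ?_, ?_⟩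
    · intro i
      have := hpos i
      simp only [gg]
      exact_mod_cast this
    · rw [hsumZ]
      have h1 : gg f 0 = ((m : ℕ) : ℤ) := rfl
      rw [h1, Nat.isCoprime_iff_coprime, hsum]
      simpa using hcop
    · rw [hsumZ, hsumZb, rad_cast, rad_cast]
      have hr : ∀ i, rad (gg f i) = Pool.Agent.H785R2.ABC.rad (f i) := fun i => rad_cast (f i)
      simp only [hr]
      have h1 : ∏ i, Pool.Agent.H785R2.ABC.rad (f i) ≤ (2 * Z) * (2 * W) ^ (g + 1) := by
        rw [Fin.prod_univ_succ]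
        have e1 : Pool.Agent.H785R2.ABC.rad (f 0) ≤ 2 * Z := by
          rw [f0]
          exact (rad_le hm1).trans hk2
        have e2 : ∏ i : Fin (g + 1), Pool.Agent.H785R2.ABC.rad (f i.succ) ≤
            (2 * W) ^ (g + 1) := by
          calc ∏ i : Fin (g + 1), Pool.Agent.H785R2.ABC.rad (f i.succ) ≤
                ∏ _i : Fin (g + 1), 2 * W :=
                Finset.prod_le_prod' fun i _ => (rad_le (hpos i.succ)).trans (hle i)
            _ = (2 * W) ^ (g + 1) := by simp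
        exact Nat.mul_le_mul e1 e2
      refine Nat.mul_le_mul h1 (Nat.mul_le_mul ?_ ?_)
      · refine (rad_le ?_).trans hsumle
        rw [hsum]; omega
      · exact (rad_le hbpos).trans hble
    · rw [hsumZ]
      have : Z ≤ ∑ i, f i := by rw [hsum]; omega
      exact_mod_cast this
    · rw [hsumZ]
      exact_mod_cast hsumle
  · rw [Finset.card_image_of_injOn hinj, hS, Finset.card_sigma]
    have h2 : (Fintype.piFinset fun _ : Fin g => Icc 1 W).card = W ^ g := by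
      rw [Fintype.card_piFinset]; simp
    calc W ^ (g + 1) * K = ∑ _q ∈ (range W) ×ˢ (Fintype.piFinset fun _ : Fin g => Icc 1 W),
          K := by
          rw [Finset.sum_const, Finset.card_product, Finset.card_range, smul_eq_mul, h2]
          ring
      _ ≤ _ := by
          refine Finset.sum_le_sum fun q hq => hK _ ?_ ?_
          · omega
          · rw [Finset.mem_product, Finset.mem_range, Fintype.mem_piFinset] at hq
            have h4 := hwsum q.2 fun i => (Finset.mem_Icc.1 (hq.2 i)).2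
            have h5 := hq.1
            omega

theorem t_POS4 : S_POS4 := by
  intro h α β δ hh hβ hβα hαβ hδ K₀ hK₀
  obtain ⟨g, rfl⟩ : ∃ g, h = g + 1 := ⟨h - 1, by omega⟩
  have hg0 : (0 : ℝ) ≤ g := Nat.cast_nonneg g
  push_cast at hαβ
  have hα0 : 0 < α := lt_of_lt_of_le hβ hβα
  have hα1 : α < 1 := by nlinarith
  have hβ1 : β ≤ 1 := by linarith
  set K' : ℝ := max K₀ 1 with hK'
  have hK'1 : 1 ≤ K' := le_max_right _ _
  have hK'0 : K₀ ≤ K' := le_max_left _ _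
  have hK'pos : 0 < K' := by linarith
  have hKp : 1 ≤ K' ^ 2 := one_le_pow₀ hK'1
  set C : ℝ := ((g : ℝ) + 1) + 96 * K' ^ 2 with hC
  have hC97 : 97 ≤ C := by rw [hC]; linarith
  have hCk : (g : ℝ) + 1 ≤ C := by rw [hC]; linarith
  have hCK : 96 * K' ^ 2 ≤ C := by rw [hC]; linarith
  have hC0 : 0 < C := by linarith
  have hev : ∀ᶠ X : ℝ in atTop, 16 ≤ X ∧ 2 * K' ≤ X ^ (1 - α) ∧
      2 * Real.log X ≤ X ^ δ ∧ 2 * C ≤ X ^ β ∧ 32 * Real.log X ^ 2 ≤ X ^ α := by
    have e1 : ∀ᶠ X : ℝ in atTop, (16 : ℝ) ≤ X := eventually_ge_atTop _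
    have e2 : ∀ᶠ X : ℝ in atTop, 2 * K' ≤ X ^ (1 - α) :=
      (tendsto_rpow_atTop (by linarith)).eventually_ge_atTop _
    have e4 : ∀ᶠ X : ℝ in atTop, 2 * Real.log X ≤ X ^ δ := by
      have h1 := (isLittleO_log_rpow_atTop hδ).bound (by norm_num : (0 : ℝ) < 1 / 2)
      filter_upwards [h1, eventually_ge_atTop 1] with X h2 h3
      rw [Real.norm_of_nonneg (Real.log_nonneg h3),
        Real.norm_of_nonneg (Real.rpow_nonneg (by linarith) _)] at h2
      linarith
    have e5 : ∀ᶠ X : ℝ in atTop, 2 * C ≤ X ^ β := (tendsto_rpow_atTop hβ).eventually_ge_atTop _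
    have e6 : ∀ᶠ X : ℝ in atTop, 32 * Real.log X ^ 2 ≤ X ^ α := by
      have h1 := (isLittleO_log_rpow_atTop (by positivity : 0 < α / 2)).bound
        (by norm_num : (0 : ℝ) < 1 / 8)
      filter_upwards [h1, eventually_ge_atTop 1] with X h2 h3
      have hX0 : (0 : ℝ) ≤ X := by linarith
      rw [Real.norm_of_nonneg (Real.log_nonneg h3),
        Real.norm_of_nonneg (Real.rpow_nonneg hX0 _)] at h2
      have h4 : Real.log X ^ 2 ≤ (1 / 8 * X ^ (α / 2)) ^ 2 :=
        pow_le_pow_left₀ (Real.log_nonneg h3) h2 2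
      rw [mul_pow, ← Real.rpow_natCast (X ^ (α / 2)), ← Real.rpow_mul hX0] at h4
      have h5 : α / 2 * ((2 : ℕ) : ℝ) = α := by push_cast; ring
      rw [h5] at h4
      have h6 : 0 ≤ X ^ α := Real.rpow_nonneg hX0 _
      linarith
    filter_upwards [e1, e2, e4, e5, e6] with X h1 h2 h4 h5 h6
    exact ⟨h1, h2, h4, h5, h6⟩
  obtain ⟨X₀, hX₀⟩ := eventually_atTop.1 hev
  refine ⟨(1 / (2 * C)) ^ (g + 1), 6 * K', X₀, by positivity, by positivity, fun X hX => ?_⟩
  obtain ⟨x1, x2, x4, x5, x6⟩ := hX₀ X hX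
  have hX1 : 1 ≤ X := by linarith
  have hX0 : 0 < X := by linarith
  have hXα : 0 < X ^ α := Real.rpow_pos_of_pos hX0 _
  set H : ℝ := K' * X ^ α with hH
  have hH0 : 0 < H := by positivity
  have hsH : X ^ α ≤ H := le_mul_of_one_le_left hXα.le hK'1
  have h2HX : 2 * H ≤ X := by
    have h1 : X ^ (1 - α) * X ^ α = X := by
      rw [← Real.rpow_add hX0, sub_add_cancel, Real.rpow_one]
    calc 2 * H = (2 * K') * X ^ α := by rw [hH]; ring
      _ ≤ X ^ (1 - α) * X ^ α := by gcongr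
      _ = X := h1
  set D : ℝ := X ^ β with hD
  have hD0 : 0 < D := Real.rpow_pos_of_pos hX0 _
  have hDH : D ≤ H := (Real.rpow_le_rpow_of_exponent_le hX1 hβα).trans hsH
  have hDX : D ≤ X := by
    calc D ≤ X ^ (1 : ℝ) := Real.rpow_le_rpow_of_exponent_le hX1 hβ1
      _ = X := Real.rpow_one X
  have hHD : H ^ 2 * D ^ (g + 2) = K' ^ 2 * X := by
    rw [hD, hH, mul_pow, ← Real.rpow_natCast (X ^ α), ← Real.rpow_mul hX0.le, mul_assoc,
      ← Real.rpow_natCast (X ^ β), ← Real.rpow_mul hX0.le, ← Real.rpow_add hX0]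
    push_cast
    rw [show α * 2 + β * ((g : ℝ) + 2) = 1 by linarith, Real.rpow_one]
  have hH16 : 1 ≤ H := by
    have h0 : (2 : ℝ) ≤ D := by linarith
    linarith
  -- the natural numbers
  set Z : ℕ := ⌈H⌉₊ with hZ
  have hHZ : H ≤ Z := Nat.le_ceil H
  have hZ2H : (Z : ℝ) ≤ 2 * H := by
    have := Nat.ceil_lt_add_one (by linarith : 0 ≤ H)
    linarith
  set W : ℕ := ⌊D / C⌋₊ with hW
  have hWle : (W : ℝ) ≤ D / C := Nat.floor_le (by positivity)
  have hWge : D / (2 * C) ≤ W := by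
    have h1 := Nat.lt_floor_add_one (D / C)
    have h2 : 1 ≤ D / (2 * C) := by rw [le_div_iff₀ (by positivity)]; linarith
    have h3 : D / C = D / (2 * C) + D / (2 * C) := by field_simp; ring
    rw [← hW] at h1
    linarith
  have hW1 : 1 ≤ W := by
    have h2 : 1 ≤ D / (2 * C) := by rw [le_div_iff₀ (by positivity)]; linarith
    have : (1 : ℝ) ≤ W := h2.trans hWge
    exact_mod_cast this
  have hgW : ((g : ℝ) + 1) * W ≤ D := by
    calc ((g : ℝ) + 1) * W ≤ C * (D / C) := by gcongr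
      _ = D := by field_simp
  have hZ2 : 2 ≤ Z := by
    have : (2 : ℝ) ≤ Z := by
      have h0 : (2 : ℝ) ≤ D := by linarith
      linarith
    exact_mod_cast this
  set B : ℕ := (g + 1) * W with hB
  have hB1 : 1 ≤ B := by rw [hB]; exact Nat.mul_pos (by omega) (by omega)
  have hBD : (B : ℝ) ≤ D := by rw [hB]; push_cast; exact hgW
  set K : ℕ := Z.primeCounting - Nat.log 2 (4 * B) with hK
  have hKge : (Z : ℝ) ≤ (K : ℝ) * (2 * Real.log X) :=
    many_primes X Z B x1 hZ2 (by linarith) hB1 (by linarith) (by linarith)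
  obtain ⟨T, hT1, hT2⟩ := comb4 g Z W K (by
    intro t ht1 ht2
    have h1 := primes_ge Z t ht1
    have h2 : Nat.log 2 t ≤ Nat.log 2 (4 * B) := Nat.log_mono_right (by omega)
    omega)
  refine ⟨T, fun z hz => ?_, ?_⟩
  · obtain ⟨g1, g2, g3, g4, g5⟩ := hT1 z hz
    refine ⟨g1, g2, ?_, ?_, ?_⟩
    · have h1 : (((∏ i, rad (z i)) *
          (rad (∑ i, z i) * rad (∑ j : Fin (g + 1), z j.succ)) : ℕ) : ℝ) ≤
          ((((2 * Z) * (2 * W) ^ (g + 1)) * ((2 * Z + 2 * B) * (2 * B)) : ℕ) : ℝ) := by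
        exact_mod_cast g3
      have h2 : (((∏ i, rad (z i)) *
          (rad (∑ i, z i) * rad (∑ j : Fin (g + 1), z j.succ)) : ℕ) : ℝ) =
          (∏ i, (rad (z i) : ℝ)) * ((rad (∑ i, z i) : ℝ) *
            (rad (∑ j : Fin (g + 1), z j.succ) : ℝ)) := by
        push_cast; rfl
      rw [← h2]
      refine h1.trans ?_
      have h3 : (2 / C) ^ (g + 1) ≤ 2 / C := by
        calc (2 / C) ^ (g + 1) ≤ (2 / C) ^ 1 := by
              refine pow_le_pow_of_le_one (by positivity) ?_ (by omega)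
              rw [div_le_one hC0]; linarith
          _ = 2 / C := pow_one _
      push_cast
      calc 2 * (Z : ℝ) * (2 * (W : ℝ)) ^ (g + 1) * ((2 * Z + 2 * B) * (2 * B)) ≤
            2 * (2 * H) * (2 * (D / C)) ^ (g + 1) * ((2 * (2 * H) + 2 * H) * (2 * D)) := by
            have hBH : (B : ℝ) ≤ H := hBD.trans hDH
            gcongr
        _ = (48 * (2 / C) ^ (g + 1)) * (H ^ 2 * D ^ (g + 2)) := by
            rw [show 2 * (D / C) = (2 / C) * D by ring, mul_pow]; ring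
        _ = (48 * (2 / C) ^ (g + 1)) * (K' ^ 2 * X) := by rw [hHD]
        _ ≤ (48 * (2 / C)) * (K' ^ 2 * X) := by gcongr
        _ = (96 * K' ^ 2 / C) * X := by ring
        _ ≤ 1 * X := by
            gcongr
            rw [div_le_one hC0]
            exact hCK
        _ = X := one_mul X
    · have : (((Z : ℕ) : ℤ) : ℝ) ≤ ((∑ i, z i : ℤ) : ℝ) := Int.cast_le.2 g4
      refine le_trans ?_ this
      rw [Int.cast_natCast]
      calc K₀ * X ^ α ≤ K' * X ^ α := by gcongr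
        _ ≤ _ := hHZ
    · have : ((∑ i, z i : ℤ) : ℝ) ≤ (((2 * Z + 2 * B : ℕ) : ℤ) : ℝ) := Int.cast_le.2 g5
      refine this.trans ?_
      rw [Int.cast_natCast, mul_assoc]
      push_cast
      linarith
  · have h1 : ((W ^ (g + 1) * K : ℕ) : ℝ) ≤ (T.card : ℝ) := by exact_mod_cast hT2
    refine le_trans ?_ h1
    push_cast
    have hlog0 : 0 < 2 * Real.log X := by
      have := Real.log_pos (by linarith : 1 < X)
      linarith
    have hXd : 0 < X ^ δ := Real.rpow_pos_of_pos hX0 _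
    have hK1 : (Z : ℝ) / X ^ δ ≤ K := by
      rw [div_le_iff₀ hXd]
      refine hKge.trans ?_
      gcongr
    have e1 : (1 / (2 * C)) ^ (g + 1) * X ^ (1 - α - β - δ) =
        (D / (2 * C)) ^ (g + 1) * (X ^ α / X ^ δ) := by
      have e2 : X ^ (1 - α - β - δ) = D ^ (g + 1) * (X ^ α / X ^ δ) := by
        rw [hD, ← Real.rpow_natCast (X ^ β), ← Real.rpow_mul hX0.le, ← Real.rpow_sub hX0,
          ← Real.rpow_add hX0]
        congr 1
        push_cast
        linarith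
      rw [e2, div_pow, div_pow, one_pow]
      ring
    rw [e1]
    calc (D / (2 * C)) ^ (g + 1) * (X ^ α / X ^ δ) ≤ (W : ℝ) ^ (g + 1) * ((Z : ℝ) / X ^ δ) := by
          have : X ^ α ≤ Z := hsH.trans hHZ
          gcongr
      _ ≤ (W : ℝ) ^ (g + 1) * K := by gcongr

end Pool.Agent.K1H68.NX3

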